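import Mathlib

/-!
Rigid facets of Vietoris-Rips complexes of the cube from symmetric four-colourings with holes.
-/

namespace Pool.Agent.P.MP_dee721_co

open Finset

/-- The three working properties of a rigid facet, for any coordinate set. -/
structure Good {ι : Type} [Fintype ι] [DecidableEq ι] (r : ℕ) (σ : Finset (ι → ℤˣ)) : Prop where
  ne : σ.Nonempty
  diam : ∀ x ∈ σ, ∀ y ∈ σ, hammingDist x y ≤ r
  maxi : ∀ x, x ∉ σ → ∃ y ∈ σ, r < hammingDist x y
  rigid : ∀ x ∈ σ, ∃ y ∈ σ, hammingDist x y = r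

lemma hd_sum {α β : Type} [Fintype α] [Fintype β] (x y : α ⊕ β → ℤˣ) :
    hammingDist x y = hammingDist (fun a => x (Sum.inl a)) (fun a => y (Sum.inl a))
      + hammingDist (fun b => x (Sum.inr b)) (fun b => y (Sum.inr b)) := by
  simp only [hammingDist, Finset.card_filter, Fintype.sum_sum_type]

lemma hd_neg {κ : Type} [Fintype κ] (u v : κ → ℤˣ) :
    hammingDist u v + hammingDist (-u) v = Fintype.card κ := by
  simp only [hammingDist, Finset.card_filter, ← Finset.sum_add_distrib, Pi.neg_apply]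
  rw [← Finset.card_univ, Finset.card_eq_sum_ones]
  refine Finset.sum_congr rfl fun i _ => ?_
  generalize u i = a
  generalize v i = b
  revert a b
  decide

lemma hd_neg' {κ : Type} [Fintype κ] (u v : κ → ℤˣ) :
    hammingDist u v + hammingDist u (-v) = Fintype.card κ := by
  rw [hammingDist_comm u v, hammingDist_comm u (-v), hd_neg]

/-- Flip coordinate `i`. -/
def flip {κ : Type} [DecidableEq κ] (w : κ → ℤˣ) (i : κ) : κ → ℤˣ := Function.update w i (-w i)

lemma hd_flip {κ : Type} [Fintype κ] [DecidableEq κ] (w : κ → ℤˣ) (i : κ) :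
    hammingDist w (flip w i) = 1 := by
  simp only [hammingDist]
  rw [Finset.card_eq_one]
  refine ⟨i, ?_⟩
  ext j
  rw [Finset.mem_filter]
  simp only [Finset.mem_univ, true_and, Finset.mem_singleton, flip]
  by_cases h : j = i
  · subst h
    simp only [Function.update_self, iff_true]
    generalize w j = a
    revert a
    decide
  · simp [h]

lemma eq_flip_of_hd {κ : Type} [Fintype κ] [DecidableEq κ] (u v : κ → ℤˣ)
    (h : hammingDist u v = 1) : ∃ i, v = flip u i := by
  simp only [hammingDist] at h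
  rw [Finset.card_eq_one] at h
  obtain ⟨i, hi⟩ := h
  refine ⟨i, ?_⟩
  funext j
  have hj : j ∈ Finset.univ.filter (fun k => u k ≠ v k) ↔ j = i := by rw [hi]; simp
  simp only [Finset.mem_filter, Finset.mem_univ, true_and] at hj
  by_cases hji : j = i
  · subst hji
    have h1 : u j ≠ v j := hj.2 rfl
    simp only [flip, Function.update_self]
    revert h1
    generalize u j = a
    generalize v j = b
    revert a b
    decide
  · simp only [flip, Function.update_of_ne hji]
    by_contra hne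
    exact hji (hj.1 (Ne.symm hne))

/-- Symmetric four-colourings with holes. -/
structure IsCol {κ : Type} [Fintype κ] [DecidableEq κ]
    (col : (κ → ℤˣ) → Option (Fin 2 → ℤˣ)) : Prop where
  sym : ∀ w, col (-w) = col w
  edge : ∀ w i a, col w = some a → col (flip w i) ≠ some (-a)
  hole : ∀ w, col w = none → ∀ a, ∃ i, col (flip w i) = some a
  ne : ∃ w a, col w = some a

/-- Glue three blocks of coordinates. -/
def glue {κ τ : Type} (a : Fin 2 → ℤˣ) (w : κ → ℤˣ) : Fin 2 ⊕ κ ⊕ τ → ℤˣ :=
  Sum.elim a (Sum.elim w (fun _ => 1))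

lemma hd_two_le (a b : Fin 2 → ℤˣ) : hammingDist a b ≤ 2 := by
  simpa using hammingDist_le_card_fintype (x := a) (y := b)

lemma hd_two_eq (a b : Fin 2 → ℤˣ) (h : hammingDist a b = 2) : b = -a := by
  have h1 := hd_neg a b
  rw [h, Fintype.card_fin] at h1
  have h2 : hammingDist (-a) b = 0 := by omega
  exact (hammingDist_eq_zero.1 h2).symm

theorem good_of_col {κ τ : Type} [Fintype κ] [DecidableEq κ] [Fintype τ] [DecidableEq τ]
    (col : (κ → ℤˣ) → Option (Fin 2 → ℤˣ)) (hc : IsCol col) :
    ∃ σ : Finset (Fin 2 ⊕ κ ⊕ τ → ℤˣ), Good (Fintype.card κ) σ ∧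
      σ.card = (Finset.univ.filter fun w => col w ≠ none).card := by
  classical
  let σ : Finset (Fin 2 ⊕ κ ⊕ τ → ℤˣ) := Finset.univ.filter fun x =>
    col (fun k => x (Sum.inr (Sum.inl k))) = some (fun a => x (Sum.inl a)) ∧
      (fun t => x (Sum.inr (Sum.inr t))) = fun _ => 1
  have hmem : ∀ x, x ∈ σ ↔ col (fun k => x (Sum.inr (Sum.inl k))) = some (fun a => x (Sum.inl a)) ∧
      (fun t => x (Sum.inr (Sum.inr t))) = fun _ => 1 := by
    intro x; simp [σ]
  have hglue : ∀ a w, col w = some a → (glue a w : Fin 2 ⊕ κ ⊕ τ → ℤˣ) ∈ σ := by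
    intro a w h
    rw [hmem]
    exact ⟨h, rfl⟩
  have hdist : ∀ x y : Fin 2 ⊕ κ ⊕ τ → ℤˣ, hammingDist x y =
      hammingDist (fun a => x (Sum.inl a)) (fun a => y (Sum.inl a)) +
      (hammingDist (fun k => x (Sum.inr (Sum.inl k))) (fun k => y (Sum.inr (Sum.inl k))) +
       hammingDist (fun t => x (Sum.inr (Sum.inr t))) (fun t => y (Sum.inr (Sum.inr t)))) := by
    intro x y
    rw [hd_sum x y, hd_sum (fun b => x (Sum.inr b)) (fun b => y (Sum.inr b))]
  have hdg : ∀ (x : Fin 2 ⊕ κ ⊕ τ → ℤˣ) a w, hammingDist x (glue a w) =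
      hammingDist (fun a => x (Sum.inl a)) a +
      (hammingDist (fun k => x (Sum.inr (Sum.inl k))) w +
       hammingDist (fun t => x (Sum.inr (Sum.inr t))) (fun _ => 1)) := by
    intro x a w
    rw [hdist]
    rfl
  refine ⟨σ, ⟨?_, ?_, ?_, ?_⟩, ?_⟩
  · obtain ⟨w, a, h⟩ := hc.ne
    exact ⟨_, hglue a w h⟩
  · intro x hx y hy
    rw [hmem] at hx hy
    rw [hdist, hx.2, hy.2, hammingDist_self, add_zero]
    obtain ⟨hx, -⟩ := hx
    obtain ⟨hy, -⟩ := hy
    generalize (fun k => x (Sum.inr (Sum.inl k))) = w at hx ⊢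
    generalize (fun k => y (Sum.inr (Sum.inl k))) = w' at hy ⊢
    generalize (fun a => x (Sum.inl a)) = a at hx ⊢
    generalize (fun a => y (Sum.inl a)) = b at hy ⊢
    have h1 := hd_neg w w'
    have h2 := hd_two_le a b
    by_cases hab : a = b
    · subst hab
      rw [hammingDist_self]
      omega
    · have h3 : hammingDist (-w) w' ≠ 0 := by
        intro h
        have h4 := hammingDist_eq_zero.1 h
        rw [← h4, hc.sym, hx] at hy
        exact hab (Option.some.inj hy)
      by_cases h5 : hammingDist a b = 2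
      · have h6 : hammingDist (-w) w' ≠ 1 := by
          intro h
          obtain ⟨i, hi⟩ := eq_flip_of_hd _ _ h
          have h7 := hc.edge (-w) i a (by rw [hc.sym, hx])
          rw [← hi, hy, hd_two_eq a b h5] at h7
          exact h7 rfl
        omega
      · omega
  · intro x hx
    rw [hmem] at hx
    rcases hcw : col (fun k => x (Sum.inr (Sum.inl k))) with _ | b
    · obtain ⟨i, hi⟩ := hc.hole _ hcw (-(fun a => x (Sum.inl a)))
      refine ⟨glue _ (-(flip (fun k => x (Sum.inr (Sum.inl k))) i)),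
        hglue _ _ (by rw [hc.sym, hi]), ?_⟩
      rw [hdg]
      have h1 := hd_neg' (fun a => x (Sum.inl a)) (fun a => x (Sum.inl a))
      have h2 := hd_neg' (fun k => x (Sum.inr (Sum.inl k)))
        (flip (fun k => x (Sum.inr (Sum.inl k))) i)
      rw [hd_flip] at h2
      rw [hammingDist_self, Fintype.card_fin] at h1
      omega
    · refine ⟨glue b (-(fun k => x (Sum.inr (Sum.inl k)))), hglue _ _ (by rw [hc.sym, hcw]), ?_⟩
      rw [hdg]
      have h2 := hd_neg' (fun k => x (Sum.inr (Sum.inl k))) (fun k => x (Sum.inr (Sum.inl k)))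
      rw [hammingDist_self] at h2
      by_contra hcon
      have h3 : hammingDist (fun a => x (Sum.inl a)) b = 0 := by omega
      have h4 : hammingDist (fun t => x (Sum.inr (Sum.inr t))) (fun _ => 1) = 0 := by omega
      exact hx ⟨by rw [hcw, hammingDist_eq_zero.1 h3], hammingDist_eq_zero.1 h4⟩
  · intro x hx
    rw [hmem] at hx
    refine ⟨glue _ (-(fun k => x (Sum.inr (Sum.inl k)))), hglue _ _ (by rw [hc.sym, hx.1]), ?_⟩
    rw [hdg, hx.2, hammingDist_self, hammingDist_self]
    have h2 := hd_neg' (fun k => x (Sum.inr (Sum.inl k))) (fun k => x (Sum.inr (Sum.inl k)))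
    rw [hammingDist_self] at h2
    omega
  · refine Finset.card_bij (fun x _ => fun k => x (Sum.inr (Sum.inl k))) ?_ ?_ ?_
    · intro x hx
      rw [hmem] at hx
      simp [hx.1]
    · intro x hx y hy hxy
      rw [hmem] at hx hy
      have h1 : (fun a => x (Sum.inl a)) = fun a => y (Sum.inl a) := by
        have h2 := hx.1
        rw [hxy, hy.1] at h2
        exact (Option.some.inj h2).symm
      funext i
      rcases i with a | k | t
      · exact congrFun h1 a
      · exact congrFun hxy k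
      · exact (congrFun hx.2 t).trans (congrFun hy.2 t).symm
    · intro w hw
      simp only [Finset.mem_filter, Finset.mem_univ, true_and] at hw
      obtain ⟨a, ha⟩ := Option.ne_none_iff_exists'.1 hw
      exact ⟨glue a w, hglue a w ha, rfl⟩

/-- Transport along a bijection of coordinates. -/
theorem good_transfer {ι ι' : Type} [Fintype ι] [DecidableEq ι] [Fintype ι'] [DecidableEq ι']
    (e : ι ≃ ι') (r : ℕ) (σ : Finset (ι → ℤˣ)) (h : Good r σ) :
    ∃ σ' : Finset (ι' → ℤˣ), Good r σ' ∧ σ'.card = σ.card := by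
  let E : (ι → ℤˣ) ≃ (ι' → ℤˣ) := e.arrowCongr (Equiv.refl _)
  have hE : ∀ x y, hammingDist (E x) (E y) = hammingDist x y := by
    intro x y
    simp only [hammingDist, Finset.card_filter]
    rw [← e.sum_comp]
    simp [E]
  refine ⟨σ.map E.toEmbedding, ⟨?_, ?_, ?_, ?_⟩, by simp⟩
  · simpa using h.ne
  · intro x hx y hy
    obtain ⟨x', hx', rfl⟩ := Finset.mem_map.1 hx
    obtain ⟨y', hy', rfl⟩ := Finset.mem_map.1 hy
    simpa [hE] using h.diam x' hx' y' hy'
  · intro x hx
    obtain ⟨x, rfl⟩ := E.surjective x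
    have hx' : x ∉ σ := fun hh => hx (Finset.mem_map.2 ⟨x, hh, rfl⟩)
    obtain ⟨y, hy, hxy⟩ := h.maxi x hx'
    exact ⟨E y, Finset.mem_map.2 ⟨y, hy, rfl⟩, by rwa [hE]⟩
  · intro x hx
    obtain ⟨x', hx', rfl⟩ := Finset.mem_map.1 hx
    obtain ⟨y, hy, hxy⟩ := h.rigid x' hx'
    exact ⟨E y, Finset.mem_map.2 ⟨y, hy, rfl⟩, by simpa [hE] using hxy⟩

end Pool.Agent.P.MP_dee721_co
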