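import Pool.Agent.P.MP_dee721_co.Colouring

/-!
A toggling gadget giving symmetric four-colourings of the cube with any even number of holes
up to `2 * 2 ^ (r - 6)`.
-/

namespace Pool.Agent.P.MP_dee721_co

open Finset

/-- The local colouring rule. -/
def gad (y1 y2 y3 y4 s : ℤˣ) (t : Bool) : Option (Fin 2 → ℤˣ) :=
  if y1 = 1 ∧ y2 = 1 ∧ y3 = 1 ∧ y4 = 1 ∧ s = 1 then (if t then none else some ![1, 1])
  else if y1 = -1 ∧ y2 = 1 ∧ y3 = 1 ∧ y4 = 1 ∧ s = 1 then
    (if t then some ![-1, -1] else some ![1, 1])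
  else if y2 = -1 ∧ y3 = 1 ∧ y4 = 1 ∧ s = 1 then some ![-1, 1]
  else if (y2 = 1 ∧ y3 = -1 ∧ y4 = 1 ∧ s = 1) ∨ (y1 = -1 ∧ y2 = 1 ∧ y3 = 1 ∧ y4 = -1 ∧ s = 1) ∨
      (y1 = -1 ∧ y2 = 1 ∧ y3 = 1 ∧ y4 = 1 ∧ s = -1) ∨ (y1 = 1 ∧ y2 = -1 ∧ y3 = -1 ∧ y4 = -1) then
    some ![1, -1]
  else some ![1, 1]

/-- No conflict between two colours. -/
def ok (p q : Option (Fin 2 → ℤˣ)) : Prop := ∀ a, p = some a → q ≠ some (-a)

instance (p q : Option (Fin 2 → ℤˣ)) : Decidable (ok p q) := by unfold ok; infer_instance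

lemma gad_anti : ∀ (y1 y2 y3 y4 s s' : ℤˣ) (t t' : Bool),
    ok (gad y1 y2 y3 y4 s t) (gad (-y1) (-y2) (-y3) (-y4) s' t') := by decide +kernel

lemma gad_par : ∀ (y1 y2 y3 y4 s : ℤˣ) (t t' : Bool),
    ok (gad y1 y2 y3 y4 s t) (gad y1 y2 y3 y4 (-s) t') := by decide +kernel

lemma gad_y : ∀ (y1 y2 y3 y4 s : ℤˣ) (t : Bool),
    ok (gad y1 y2 y3 y4 s t) (gad (-y1) y2 y3 y4 s t) ∧
    ok (gad y1 y2 y3 y4 s t) (gad y1 (-y2) y3 y4 s t) ∧
    ok (gad y1 y2 y3 y4 s t) (gad y1 y2 (-y3) y4 s t) ∧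
    ok (gad y1 y2 y3 y4 s t) (gad y1 y2 y3 (-y4) s t) := by decide +kernel

lemma gad_none' : ∀ (y1 y2 y3 y4 s : ℤˣ) (t : Bool), (gad y1 y2 y3 y4 s t).isNone =
    (decide (y1 = 1) && decide (y2 = 1) && decide (y3 = 1) && decide (y4 = 1) && decide (s = 1)
      && t) := by decide +kernel

lemma gad_none (y1 y2 y3 y4 s : ℤˣ) (t : Bool) : gad y1 y2 y3 y4 s t = none ↔
    (y1 = 1 ∧ y2 = 1 ∧ y3 = 1 ∧ y4 = 1 ∧ s = 1 ∧ t = true) := by
  rw [← Option.isNone_iff_eq_none, gad_none']
  simp [and_assoc]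

lemma gad_hole : ∀ a : Fin 2 → ℤˣ, gad (-1) 1 1 1 1 true = some a ∨ gad 1 (-1) 1 1 1 true = some a ∨
    gad 1 1 (-1) 1 1 true = some a ∨ gad 1 1 1 (-1) 1 true = some a := by decide +kernel

variable {ν : Type} [Fintype ν] [DecidableEq ν]

/-- The normalised tail of a point. -/
def tl (w : Fin 6 ⊕ ν → ℤˣ) : ν → ℤˣ := fun i => w (Sum.inr i) * w (Sum.inl 0)

/-- The parity class of a point. -/
def par (w : Fin 6 ⊕ ν → ℤˣ) : ℤˣ := (w (Sum.inl 5) * w (Sum.inl 0)) * ∏ i, tl w i

/-- Membership test. -/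
def memT (T : Finset (ν → ℤˣ)) (z : ν → ℤˣ) : Bool := decide (z ∈ T)

/-- The colouring attached to a set `T` of tails. -/
def colT (T : Finset (ν → ℤˣ)) (w : Fin 6 ⊕ ν → ℤˣ) : Option (Fin 2 → ℤˣ) :=
  gad (w (Sum.inl 1) * w (Sum.inl 0)) (w (Sum.inl 2) * w (Sum.inl 0))
    (w (Sum.inl 3) * w (Sum.inl 0)) (w (Sum.inl 4) * w (Sum.inl 0)) (par w) (memT T (tl w))

omit [Fintype ν] in
lemma flip_self (w : Fin 6 ⊕ ν → ℤˣ) (i : Fin 6 ⊕ ν) : flip w i i = -w i := by simp [flip]

omit [Fintype ν] in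
lemma flip_ne (w : Fin 6 ⊕ ν → ℤˣ) {i j : Fin 6 ⊕ ν} (h : j ≠ i) : flip w i j = w j := by
  simp [flip, h]

omit [Fintype ν] in
lemma tl_flip_inl (w : Fin 6 ⊕ ν → ℤˣ) {j : Fin 6} (h : j ≠ 0) : tl (flip w (Sum.inl j)) = tl w := by
  funext i
  simp only [tl]
  rw [flip_ne w (by simp), flip_ne w (by simpa using h.symm)]

lemma par_flip_inl (w : Fin 6 ⊕ ν → ℤˣ) {j : Fin 6} (h : j ≠ 0) (h5 : j ≠ 5) :
    par (flip w (Sum.inl j)) = par w := by
  simp only [par]
  rw [tl_flip_inl w h, flip_ne w (by simpa using h5.symm), flip_ne w (by simpa using h.symm)]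

lemma par_flip_five (w : Fin 6 ⊕ ν → ℤˣ) : par (flip w (Sum.inl 5)) = -par w := by
  simp only [par]
  rw [tl_flip_inl w (by decide), flip_self, flip_ne w (by simp)]
  simp

lemma par_flip_inr (w : Fin 6 ⊕ ν → ℤˣ) (k : ν) : par (flip w (Sum.inr k)) = -par w := by
  simp only [par]
  rw [flip_ne w (by simp), flip_ne w (by simp)]
  have h : tl (flip w (Sum.inr k)) = Function.update (tl w) k (-tl w k) := by
    funext i
    by_cases hi : i = k
    · subst hi
      simp only [tl, Function.update_self]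
      rw [flip_self, flip_ne w (by simp)]
      simp
    · simp only [tl, Function.update_of_ne hi]
      rw [flip_ne w (by simpa using hi), flip_ne w (by simp)]
  rw [h, Finset.prod_update_of_mem (Finset.mem_univ k),
    ← Finset.mul_prod_erase Finset.univ (tl w) (Finset.mem_univ k), Finset.sdiff_singleton_eq_erase]
  simp

theorem isCol_colT (T : Finset (ν → ℤˣ)) : IsCol (colT T) := by
  refine ⟨?_, ?_, ?_, ?_⟩
  · intro w
    have h : tl (-w) = tl w := by funext i; simp [tl]
    simp [colT, par, h]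
  · intro w i
    change ok _ _
    rcases i with j | k
    · fin_cases j
      · simp only [colT, Fin.zero_eta]
        rw [flip_self, flip_ne w (by simp), flip_ne w (by simp), flip_ne w (by simp),
          flip_ne w (by simp)]
        simp only [mul_neg]
        exact gad_anti _ _ _ _ _ _ _ _
      · simp only [colT, Fin.mk_one]
        rw [par_flip_inl w (by decide) (by decide), tl_flip_inl w (by decide), flip_self,
          flip_ne w (by simp), flip_ne w (by simp), flip_ne w (by simp), flip_ne w (by simp)]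
        simp only [neg_mul]
        exact (gad_y _ _ _ _ _ _).1
      · simp only [colT, Fin.reduceFinMk]
        rw [par_flip_inl w (by decide) (by decide), tl_flip_inl w (by decide), flip_self,
          flip_ne w (by simp), flip_ne w (by simp), flip_ne w (by simp), flip_ne w (by simp)]
        simp only [neg_mul]
        exact (gad_y _ _ _ _ _ _).2.1
      · simp only [colT, Fin.reduceFinMk]
        rw [par_flip_inl w (by decide) (by decide), tl_flip_inl w (by decide), flip_self,
          flip_ne w (by simp), flip_ne w (by simp), flip_ne w (by simp), flip_ne w (by simp)]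
        simp only [neg_mul]
        exact (gad_y _ _ _ _ _ _).2.2.1
      · simp only [colT, Fin.reduceFinMk]
        rw [par_flip_inl w (by decide) (by decide), tl_flip_inl w (by decide), flip_self,
          flip_ne w (by simp), flip_ne w (by simp), flip_ne w (by simp), flip_ne w (by simp)]
        simp only [neg_mul]
        exact (gad_y _ _ _ _ _ _).2.2.2
      · simp only [colT, Fin.reduceFinMk]
        rw [par_flip_five,
          flip_ne w (by simp), flip_ne w (by simp), flip_ne w (by simp), flip_ne w (by simp),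
          flip_ne w (by simp)]
        exact gad_par _ _ _ _ _ _ _
    · simp only [colT]
      rw [par_flip_inr,
        flip_ne w (by simp), flip_ne w (by simp), flip_ne w (by simp), flip_ne w (by simp),
        flip_ne w (by simp)]
      exact gad_par _ _ _ _ _ _ _
  · intro w hw a
    simp only [colT] at hw
    obtain ⟨h1, h2, h3, h4, h5, h6⟩ := (gad_none _ _ _ _ _ _).1 hw
    rcases gad_hole a with h | h | h | h
    · refine ⟨Sum.inl 1, ?_⟩
      simp only [colT]
      rw [par_flip_inl w (by decide) (by decide), tl_flip_inl w (by decide), flip_self,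
        flip_ne w (by simp), flip_ne w (by simp), flip_ne w (by simp), flip_ne w (by simp),
        neg_mul, h1, h2, h3, h4, h5, h6, h]
    · refine ⟨Sum.inl 2, ?_⟩
      simp only [colT]
      rw [par_flip_inl w (by decide) (by decide), tl_flip_inl w (by decide), flip_self,
        flip_ne w (by simp), flip_ne w (by simp), flip_ne w (by simp), flip_ne w (by simp),
        neg_mul, h1, h2, h3, h4, h5, h6, h]
    · refine ⟨Sum.inl 3, ?_⟩
      simp only [colT]
      rw [par_flip_inl w (by decide) (by decide), tl_flip_inl w (by decide), flip_self,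
        flip_ne w (by simp), flip_ne w (by simp), flip_ne w (by simp), flip_ne w (by simp),
        neg_mul, h1, h2, h3, h4, h5, h6, h]
    · refine ⟨Sum.inl 4, ?_⟩
      simp only [colT]
      rw [par_flip_inl w (by decide) (by decide), tl_flip_inl w (by decide), flip_self,
        flip_ne w (by simp), flip_ne w (by simp), flip_ne w (by simp), flip_ne w (by simp),
        neg_mul, h1, h2, h3, h4, h5, h6, h]
  · have h : colT T (Sum.elim ![1, 1, -1, 1, 1, 1] (fun _ => 1)) ≠ none := by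
      intro h
      simp only [colT] at h
      have h2 := ((gad_none _ _ _ _ _ _).1 h).2.1
      revert h2
      simp
    obtain ⟨a, ha⟩ := Option.ne_none_iff_exists'.1 h
    exact ⟨_, a, ha⟩

theorem card_holes (T : Finset (ν → ℤˣ)) :
    (Finset.univ.filter fun w => colT T w = none).card = 2 * T.card := by
  have h2 : 2 * T.card = ((Finset.univ : Finset ℤˣ) ×ˢ T).card := by simp
  rw [h2]
  have hsq : ∀ a b : ℤˣ, a * b = 1 → a = b := by decide
  have hsq' : ∀ a b c : ℤˣ, a * c = b * c → a = b := by decide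
  refine Finset.card_bij (fun w _ => (w (Sum.inl 0), tl w)) ?_ ?_ ?_
  · intro w hw
    rw [Finset.mem_filter] at hw
    obtain ⟨-, -, -, -, -, h6⟩ := (gad_none _ _ _ _ _ _).1 hw.2
    rw [Finset.mem_product]
    exact ⟨Finset.mem_univ _, by simpa [memT] using h6⟩
  · intro w hw w' hw' h
    rw [Finset.mem_filter] at hw hw'
    obtain ⟨h1, h2, h3, h4, h5, -⟩ := (gad_none _ _ _ _ _ _).1 hw.2
    obtain ⟨h1', h2', h3', h4', h5', -⟩ := (gad_none _ _ _ _ _ _).1 hw'.2
    obtain ⟨h0, ht⟩ := Prod.mk.inj h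
    funext i
    rcases i with j | k
    · fin_cases j
      · exact h0
      · exact (hsq _ _ h1).trans (h0.trans (hsq _ _ h1').symm)
      · exact (hsq _ _ h2).trans (h0.trans (hsq _ _ h2').symm)
      · exact (hsq _ _ h3).trans (h0.trans (hsq _ _ h3').symm)
      · exact (hsq _ _ h4).trans (h0.trans (hsq _ _ h4').symm)
      · simp only [par] at h5 h5'
        rw [ht, h0] at h5
        exact hsq' _ _ _ (hsq' _ _ _ (h5.trans h5'.symm))
    · have h7 := congrFun ht k
      simp only [tl] at h7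
      rw [h0] at h7
      exact hsq' _ _ _ h7
  · rintro ⟨ε, z⟩ hz
    simp only [Finset.mem_product, Finset.mem_univ, true_and] at hz
    have hε : ε * ε = 1 := Int.units_mul_self ε
    have ht : tl (Sum.elim ![ε, ε, ε, ε, ε, (∏ i, z i) * ε] (fun i => z i * ε)) = z := by
      funext i
      simp [tl, mul_assoc, hε]
    refine ⟨Sum.elim ![ε, ε, ε, ε, ε, (∏ i, z i) * ε] (fun i => z i * ε), ?_, ?_⟩
    · rw [Finset.mem_filter]
      refine ⟨Finset.mem_univ _, ?_⟩
      simp only [colT]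
      rw [gad_none, ht]
      simp only [par]
      rw [ht]
      simp [hε, hz, mul_assoc, Int.units_mul_self, memT]
    · rw [ht]
      simp

/-- For every `j ≤ 2 ^ (r - 6)` and `n ≥ r + 2` there is a rigid facet with `2 ^ r - 2 j` points. -/
theorem exists_good (r n j : ℕ) (hr : 6 ≤ r) (hn : r + 2 ≤ n) (hj : j ≤ 2 ^ (r - 6)) :
    ∃ σ : Finset (Fin n → ℤˣ), Good r σ ∧ σ.card + 2 * j = 2 ^ r := by
  obtain ⟨T, -, hT⟩ := Finset.exists_subset_card_eq
    (s := (Finset.univ : Finset (Fin (r - 6) → ℤˣ))) (n := j) (by simpa using hj)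
  obtain ⟨σ, hσ, hc⟩ := good_of_col (τ := Fin (n - (r + 2))) (colT T) (isCol_colT T)
  have hκ : Fintype.card (Fin 6 ⊕ Fin (r - 6)) = r := by simp; omega
  have hι : Fintype.card (Fin 2 ⊕ (Fin 6 ⊕ Fin (r - 6)) ⊕ Fin (n - (r + 2))) = n := by
    simp; omega
  rw [hκ] at hσ
  obtain ⟨σ', hσ', hc'⟩ := good_transfer (Fintype.equivFinOfCardEq hι) r σ hσ
  refine ⟨σ', hσ', ?_⟩
  rw [hc', hc, ← hT, ← card_holes T]
  have h := Finset.card_filter_add_card_filter_not (s := Finset.univ)
    (fun w : Fin 6 ⊕ Fin (r - 6) → ℤˣ => colT T w = none)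
  rw [Finset.card_univ, Fintype.card_fun, hκ] at h
  simp only [Fintype.card_units_int] at h
  rw [← h, add_comm]

end Pool.Agent.P.MP_dee721_co
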